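import Mathlib
import Pool.Agent.Lib.helper23.MinD

set_option autoImplicit false

namespace Pool.Agent.Results.MP_47408d_gt.Main

open Set Filter Topology Function Pool.Agent.Lib.helper23.MinD

def Minimal (G : Type) [Group G] [τ : TopologicalSpace G] : Prop :=
  ∀ σ : TopologicalSpace G, @IsTopologicalGroup G σ _ → @T2Space G σ → τ ≤ σ → σ = τ

def Precompact (G : Type) [Group G] [TopologicalSpace G] : Prop :=
  ∀ U ∈ 𝓝 (1 : G), ∃ F : Set G, F.Finite ∧ ∀ x : G, ∃ f ∈ F, ∃ u ∈ U, x = f * u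

theorem result (G : Type) [Group G] [TopologicalSpace G] [IsTopologicalGroup G] [T2Space G]
    [Infinite G] (hm : Minimal G) (hp : Precompact G) (hs : IsSolvable G) :
    ∃ x : ℕ → G, Injective x ∧ ∃ y : G, Tendsto x atTop (𝓝 y) := by
  have hP : Pool.Agent.Lib.helper23.MinC.PreM G := fun U hU => (hp U hU).imp fun F hF =>
    ⟨hF.1, fun x => (hF.2 x).imp fun f ⟨h1, u, h2, h3⟩ => ⟨h1, by simpa [h3] using h2⟩⟩
  obtain ⟨B, _, _, b1, b2⟩ := abN hP hs
  obtain ⟨b, h1, h2⟩ := seqB B (fun σ a1 a2 a3 _ => hm σ a1 a2 a3) hP b1 b2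
  obtain ⟨φ, -, h3⟩ := exists_seq_of_forall_finset_exists (fun n => b n ≠ 1)
    (fun m n => m < n ∧ b n ≠ b m) fun s hs => (h2.and ((eventually_all_finset s).2 fun m hm =>
      (eventually_gt_atTop m).and (h1.eventually_ne (hs m hm).symm))).exists
  refine ⟨b ∘ φ, fun m n e => ?_, 1, h1.comp (StrictMono.tendsto_atTop fun m n h => (h3 m n h).1)⟩
  by_contra k
  rcases lt_or_gt_of_ne k with h | h
  exacts [(h3 _ _ h).2 e.symm, (h3 _ _ h).2 e]

end Pool.Agent.Results.MP_47408d_gt.Main
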